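import Pool.Agent.MCD.Cof

/-!
# Zero tests for the permanent, and multiples of the permanent, at every constant depth
-/

set_option autoImplicit false

namespace Pool.Agent.Helper72.Kept.ConstantDepthTests

open Finset MvPolynomial

/-- Level `0`: arbitrary polynomials `Q` in `w0` affine forms.  Level `k + 1`: arbitrary
polynomials `Q` in `w` polynomials, each of which is a sum of `S` products of `S` elements of
level `k`. -/
def Cls {σ K : Type} [CommRing K] (w0 w S : ℕ) : ℕ → Set (MvPolynomial σ K)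
  | 0 => {f | ∃ (L : Fin w0 → MvPolynomial σ K) (Q : MvPolynomial (Fin w0) K),
      (∀ i, (L i).totalDegree ≤ 1) ∧ f = aeval L Q}
  | k + 1 => {f | ∃ (F : Fin w → Fin S → Fin S → MvPolynomial σ K) (Q : MvPolynomial (Fin w) K),
      (∀ l i j, F l i j ∈ Cls w0 w S k) ∧ f = aeval (fun l => ∑ i, ∏ j, F l i j) Q}

/-- The permanent of the `n × n` matrix of variables. -/
noncomputable def perm (n : ℕ) (K : Type) [CommRing K] : MvPolynomial (Fin n × Fin n) K :=
  (Matrix.of fun i j => (X (i, j) : MvPolynomial (Fin n × Fin n) K)).permanent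

/-- The lower bound `C (log(2T) + ν) ≥ n exp (-C ((log S)^(1-η) (log 2w)^η + log w0))` for the
number `T` of summands and the degree `ν` of their cofactors, where `η = 1 / (2 Fib(2k+3) - 1)`. -/
def Bound (C : ℝ) (k n T S w w0 ν : ℕ) : Prop :=
  n * Real.exp (-(C * (Real.log S ^ (1 - 1 / (2 * (Nat.fib (2 * k + 3) : ℝ) - 1)) *
    Real.log (2 * w) ^ (1 / (2 * (Nat.fib (2 * k + 3) : ℝ) - 1)) + Real.log w0))) ≤
      C * (Real.log (2 * T) + ν)

theorem cls_eq {σ K : Type} [CommRing K] (w0 w S k : ℕ) :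
    (Cls w0 w S k : Set (MvPolynomial σ K)) = Pool.Agent.Helper41.CD.Cls w0 w S k := by
  induction k with
  | zero => rfl
  | succ k ih =>
    unfold Cls Pool.Agent.Helper41.CD.Cls
    rw [ih]

theorem etaM_eq (k : ℕ) :
    Pool.MCD.etaM k = 1 / (2 * (Nat.fib (2 * k + 3) : ℝ) - 1) := by
  unfold Pool.MCD.etaM
  push_cast
  rfl

theorem Bound.mono {C C' : ℝ} (hC : C ≤ C') {k n T S w w0 ν : ℕ} (_hw : 1 ≤ w)
    (h : Bound C k n T S w w0 ν) : Bound C' k n T S w w0 ν := by
  unfold Bound at h ⊢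
  have hS1 : 0 ≤ Real.log S := Real.log_natCast_nonneg S
  have hw1 : 0 ≤ Real.log (2 * w) := by
    have := Real.log_natCast_nonneg (2 * w)
    exact_mod_cast this
  have hw2 : 0 ≤ Real.log w0 := Real.log_natCast_nonneg w0
  have hT : 0 ≤ Real.log (2 * T) + ν := by
    have h1 := Real.log_natCast_nonneg (2 * T)
    have h2 : 0 ≤ Real.log (2 * T) := by exact_mod_cast h1
    positivity
  have hX : 0 ≤ Real.log S ^ (1 - 1 / (2 * (Nat.fib (2 * k + 3) : ℝ) - 1)) *
      Real.log (2 * w) ^ (1 / (2 * (Nat.fib (2 * k + 3) : ℝ) - 1)) + Real.log w0 := by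
    have h1 := Real.rpow_nonneg hS1 (1 - 1 / (2 * (Nat.fib (2 * k + 3) : ℝ) - 1))
    have h2 := Real.rpow_nonneg hw1 (1 / (2 * (Nat.fib (2 * k + 3) : ℝ) - 1))
    positivity
  refine le_trans ?_ (h.trans (mul_le_mul_of_nonneg_right hC hT))
  refine mul_le_mul_of_nonneg_left ?_ (Nat.cast_nonneg n)
  apply Real.exp_le_exp.2
  apply neg_le_neg
  exact mul_le_mul_of_nonneg_right hC hX

/-- For every `k` there is `C > 0` such that
(1) no number of zero tests decides the permanent below the bound: if the lower bound for `log T`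
and `ν` fails, then for any number `t` of nonzero polynomials `G_i` over the complex numbers, each a
sum of `T` terms, each term the product of an arbitrary polynomial of degree at most `ν` and of `S`
elements of level `k`, and for every `R`, there is an integer matrix `X` with `perm X = 0`,
`|perm (X ± E_ab)| ≥ R`, `perm (X - E_ab) = - perm (X + E_ab)` for all `a, b`, such that no `G_i`
vanishes at a complex matrix `Y` with `|Y_ab - X_ab| ≤ R`;
(2) if `G ≠ 0` is a polynomial over a field `F` of characteristic zero whose form of top degree is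
a multiple of the permanent (for instance, `G` is a nonzero multiple of the permanent), and a sum
of `T` such terms over a valued field `K ⊇ F` (`F` trivially valued) has the coefficients of `G` up
to elements of valuation less than one, then the lower bound for `log T` and `ν` holds. -/
theorem result (k : ℕ) : ∃ C : ℝ, 0 < C ∧
    (∀ n T S w w0 ν t : ℕ, 2 ≤ n → 2 ≤ S → 1 ≤ w → w ≤ S → 1 ≤ w0 → ¬ Bound C k n T S w w0 ν →
      ∀ G : Fin t → MvPolynomial (Fin n × Fin n) ℂ,
        (∀ i, G i ≠ 0 ∧ ∃ (P : Fin T → MvPolynomial (Fin n × Fin n) ℂ)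
          (f : Fin T → Fin S → MvPolynomial (Fin n × Fin n) ℂ),
          (∀ a, (P a).totalDegree ≤ ν) ∧ (∀ a b, f a b ∈ Cls w0 w S k) ∧
            G i = ∑ a, P a * ∏ b, f a b) →
      ∀ R : ℕ, ∃ X : Matrix (Fin n) (Fin n) ℤ, X.permanent = 0 ∧
        (∀ a b, (R : ℤ) ≤ |(X + Matrix.single a b 1).permanent| ∧
          (X - Matrix.single a b 1).permanent = -(X + Matrix.single a b 1).permanent) ∧
        ∀ Y : Matrix (Fin n) (Fin n) ℂ, (∀ a b, ‖Y a b - X a b‖ ≤ R) →
          ∀ i, eval (fun p => Y p.1 p.2) (G i) ≠ 0) ∧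
    (∀ (F K Γ : Type) [Field F] [CharZero F] [Field K] [LinearOrderedCommGroupWithZero Γ]
      [Algebra F K] (v : Valuation K Γ) (n T S w w0 ν : ℕ)
      (G : MvPolynomial (Fin n × Fin n) F) (P : Fin T → MvPolynomial (Fin n × Fin n) K)
      (f : Fin T → Fin S → MvPolynomial (Fin n × Fin n) K),
      (∀ x : F, v (algebraMap F K x) ≤ 1) → 2 ≤ S → 1 ≤ w → w ≤ S → 1 ≤ w0 →
      (∀ i, (P i).totalDegree ≤ ν) → (∀ i j, f i j ∈ Cls w0 w S k) →
      G ≠ 0 → perm n F ∣ homogeneousComponent G.totalDegree G →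
      (∀ m, v (coeff m (∑ i, P i * ∏ j, f i j) - algebraMap F K (coeff m G)) < 1) →
      Bound C k n T S w w0 ν) := by
  obtain ⟨C₁, hC₁, h₁⟩ := Pool.MCD.mcd_full k
  obtain ⟨C₂, hC₂, h₂⟩ := Pool.MCD.box_cof k
  simp only [etaM_eq] at h₁ h₂
  refine ⟨max C₁ C₂, lt_of_lt_of_le hC₁ (le_max_left _ _), ?_, ?_⟩
  · intro n T S w w0 ν t hn hS hw hwS hw0 hB G hG R
    refine h₂ n T S w w0 ν t hn hS hw hwS hw0 ?_ G (fun i => ?_) R
    · by_contra hcon
      exact hB (Bound.mono (le_max_right C₁ C₂) hw (not_lt.1 hcon))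
    · obtain ⟨hG0, P, f, hP, hf, hGf⟩ := hG i
      exact ⟨hG0, P, f, hP, fun a b => by rw [← cls_eq]; exact hf a b, hGf⟩
  · intro F K Γ _ _ _ _ _ v n T S w w0 ν G P f hv hS hw hwS hw0 hP hf hG hPG hclose
    refine Bound.mono (le_max_left C₁ C₂) hw ?_
    exact h₁ F K Γ v n T S w w0 ν P f G hv hS hw hwS hw0 hP
      (fun i j => by rw [← cls_eq]; exact hf i j) hG hPG hclose

end Pool.Agent.Helper72.Kept.ConstantDepthTests
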